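import Pool.Agent.Y119.CB.Loc2
import Pool.Agent.Y119.CB.Ext
import Pool.Agent.Y685.Stm

/-!
# Task B: derivations compatible with a system of functions outside a countable set
-/

set_option autoImplicit false

open MvPolynomial Matrix Filter Set
open scoped Topology

namespace Pool.Agent.Y119.CB

/-- linearly independent rows have a nonzero minor -/
lemma exists_minor {r n : ℕ} (f : Fin r → Fin n → ℂ) (hf : LinearIndependent ℂ f) :
    ∃ J : Fin r → Fin n, (Matrix.of fun i i' => f i (J i')).det ≠ 0 := by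
  classical
  let c : Fin n → Fin r → ℂ := fun j i => f i j
  have htop : Submodule.span ℂ (Set.range c) = ⊤ := by
    by_contra hne
    obtain ⟨g, hg0, hg⟩ := Submodule.exists_le_ker_of_lt_top _ (lt_top_iff_ne_top.2 hne)
    apply hg0
    have h1 : ∀ j, ∑ i, f i j * g (Pi.single i 1) = 0 := by
      intro j
      have h2 : g (c j) = 0 := hg (Submodule.subset_span ⟨j, rfl⟩)
      have h3 : c j = ∑ i, f i j • (Pi.single i (1 : ℂ) : Fin r → ℂ) := by
        funext i'
        simp [c, Finset.sum_apply, Pi.single_apply]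
      rw [h3, map_sum] at h2
      simpa using h2
    have h4 : ∑ i, g (Pi.single i 1) • f i = 0 := by
      funext j
      rw [Finset.sum_apply]
      simpa [mul_comm] using h1 j
    have h5 := Fintype.linearIndependent_iff.1 hf _ h4
    apply LinearMap.pi_ext'
    intro i
    ext
    simpa using h5 i
  obtain ⟨g, hg1, hg2, hg3⟩ := Submodule.exists_fun_fin_finrank_span_eq ℂ (Set.range c)
  have hfin : Module.finrank ℂ (Submodule.span ℂ (Set.range c)) = r := by
    rw [htop, finrank_top]; simp
  choose J' hJ' using hg1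
  let e : Fin r ≃ Fin (Module.finrank ℂ (Submodule.span ℂ (Set.range c))) := finCongr hfin.symm
  refine ⟨fun i => J' (e i), ?_⟩
  have h6 : LinearIndependent ℂ (fun i => g (e i)) := hg3.comp e e.injective
  have h7 : (Matrix.of fun i i' => f i (J' (e i'))).col = fun i => g (e i) := by
    funext i'
    rw [← hJ']
    rfl
  rw [← h7, Matrix.linearIndependent_cols_iff_isUnit, Matrix.isUnit_iff_isUnit_det] at h6
  exact h6.ne_zero

lemma dd_eq {n : ℕ} {σ k : Type*} [Fintype σ] [Field k] [Algebra k ℂ]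
    (P : Fin n → σ → MvPolynomial σ k)
    (j : Fin n) (F : MvPolynomial σ k) : dd P j F = ∑ s, pderiv s F * P j s := by
  classical
  induction F using MvPolynomial.induction_on with
  | C a =>
    have h1 : dd P j (C a) = 0 := by
      have := (dd P j).map_algebraMap a
      rwa [MvPolynomial.algebraMap_eq] at this
    rw [h1]
    simp
  | add p q hp hq =>
    simp only [map_add, hp, hq, add_mul, Finset.sum_add_distrib]
  | mul_X p s hp =>
    rw [Derivation.leibniz, hp, dd_X]
    have h3 : ∀ x, pderiv x (X s : MvPolynomial σ k) = if x = s then 1 else 0 := by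
      intro x
      rw [pderiv_X]
      by_cases hx : x = s
      · subst hx; simp
      · have hx' : s ≠ x := fun h => hx h.symm
        simp [hx, hx']
    have h4 : ∀ x, pderiv x (p * X s) * P j x =
        p * (if x = s then P j x else 0) + X s * (pderiv x p * P j x) := by
      intro x
      rw [Derivation.leibniz, smul_eq_mul, smul_eq_mul, h3]
      split_ifs <;> ring
    rw [Finset.sum_congr rfl fun x _ => h4 x, Finset.sum_add_distrib, ← Finset.mul_sum,
      ← Finset.mul_sum, Finset.sum_ite_eq' Finset.univ s (P j), if_pos (Finset.mem_univ s)]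
    simp [smul_eq_mul]

theorem task_B : Pool.Agent.Y685.S_B := by
  intro N σ hσ k hk U hU Φ P hΦ s₀ hs₀
  classical
  have hkc : Countable k := hk.to_subtype
  have hRc : Countable (MvPolynomial σ k) := by
    rw [← Cardinal.mk_le_aleph0_iff]
    refine MvPolynomial.cardinalMk_le_max.trans ?_
    exact max_le (max_le (Cardinal.mk_le_aleph0_iff.2 hkc)
      (Cardinal.mk_le_aleph0_iff.2 inferInstance)) le_rfl
  have hH : HypF P Φ U := hΦ
  let B : (Σ r : ℕ, (Fin r → MvPolynomial σ k) × (Fin r → Fin (N + 1))) → Set (Fin (N + 1) → ℂ) :=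
    fun d => {a | a ∈ U ∧ aeval (Φ a) (hh P d.2.1 d.2.2) ≠ 0 ∧ (∀ i, aeval (Φ a) (d.2.1 i) = 0) ∧
      (∀ H : MvPolynomial σ k, aeval (Φ a) H = 0 →
        gr P (Φ a) H ∈ Submodule.span ℂ (Set.range fun i => gr P (Φ a) (d.2.1 i))) ∧
      Pi.single 0 (1 : ℂ) ∈ Submodule.span ℂ (Set.range fun i => gr P (Φ a) (d.2.1 i))}
  have hB : ∀ d, ((fun a : Fin (N + 1) → ℂ => a 0) '' B d).Countable := by
    intro d
    have h1 : ∀ a ∈ B d, ∃ O ∈ 𝓝 a, ∀ b ∈ O, (∀ i, aeval (Φ b) (d.2.1 i) = 0) → b 0 = a 0 := by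
      rintro a ⟨h2, h3, h4, h5, h6⟩
      exact locally_const hU hH h2 0 hs₀ h3 h4 h5 h6
    choose! O hO hO' using h1
    obtain ⟨t, hts, htc, ht⟩ := TopologicalSpace.countable_cover_nhdsWithin
      (f := O) (s := B d) fun x hx => mem_nhdsWithin_of_mem_nhds (hO x hx)
    refine (htc.image fun a : Fin (N + 1) → ℂ => a 0).mono ?_
    rintro _ ⟨b, hb, rfl⟩
    obtain ⟨x, hx, hbx⟩ := mem_iUnion₂.1 (ht hb)
    exact ⟨x, hx, (hO' x (hts hx) b hbx hb.2.2.1).symm⟩
  refine ⟨⋃ d, (fun a : Fin (N + 1) → ℂ => a 0) '' B d, Set.countable_iUnion hB, ?_⟩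
  intro a ha haT
  -- the span of the gradients
  let S : Set (Fin (N + 1) → ℂ) := {g | ∃ H : MvPolynomial σ k, aeval (Φ a) H = 0 ∧
    g = gr P (Φ a) H}
  by_cases hG : Pi.single 0 (1 : ℂ) ∈ Submodule.span ℂ S
  · exfalso
    apply haT
    obtain ⟨f, hf1, hf2, hf3⟩ := Submodule.exists_fun_fin_finrank_span_eq ℂ S
    choose F hF1 hF2 using hf1
    obtain ⟨J, hJ⟩ := exists_minor f hf3
    have hf : f = fun i => gr P (Φ a) (F i) := funext hF2
    refine mem_iUnion.2 ⟨⟨_, F, J⟩, a, ⟨ha, ?_, hF1, ?_, ?_⟩, rfl⟩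
    · change aeval (Φ a) (AJ P F J).det ≠ 0
      have h1 : aeval (Φ a) (AJ P F J).det =
          (Matrix.of fun i i' => f i (J i')).det := by
        have h2 := RingHom.map_det (aeval (Φ a) : MvPolynomial σ k →ₐ[k] ℂ).toRingHom (AJ P F J)
        refine h2.trans ?_
        congr 1
        ext i i'
        rw [hf]
        rfl
      rw [h1]
      exact hJ
    · intro H hH
      change gr P (Φ a) H ∈ Submodule.span ℂ (Set.range fun i => gr P (Φ a) (F i))
      rw [← hf, hf2]
      exact Submodule.subset_span ⟨H, hH, rfl⟩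
    · change Pi.single 0 (1 : ℂ) ∈ Submodule.span ℂ (Set.range fun i => gr P (Φ a) (F i))
      rw [← hf, hf2]
      exact hG
  · obtain ⟨f, hf1, hf2⟩ := Submodule.exists_le_ker_of_notMem hG
    let v : Fin (N + 1) → ℂ := fun j => f (Pi.single j 1) / f (Pi.single 0 1)
    have hv : ∀ g : Fin (N + 1) → ℂ, ∑ j, v j * g j = f g / f (Pi.single 0 1) := by
      intro g
      have h1 : g = ∑ j, g j • (Pi.single j (1 : ℂ) : Fin (N + 1) → ℂ) := by
        funext i'
        simp [Finset.sum_apply, Pi.single_apply]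
      conv_rhs => rw [h1, map_sum, Finset.sum_div]
      refine Finset.sum_congr rfl fun j _ => ?_
      rw [map_smul, smul_eq_mul]
      simp only [v]
      ring
    obtain ⟨D, hD⟩ := exists_derivation (k := k) (Φ a)
      (fun s => ∑ j, v j * aeval (Φ a) (P j s)) (by
        intro H hH
        have h1 : f (gr P (Φ a) H) = 0 := hf2 (Submodule.subset_span ⟨H, hH, rfl⟩)
        have h2 := hv (gr P (Φ a) H)
        rw [h1, zero_div] at h2
        rw [← h2]
        simp only [gr, dd_eq, map_sum, map_mul, Finset.mul_sum]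
        rw [Finset.sum_comm]
        exact Finset.sum_congr rfl fun j _ => Finset.sum_congr rfl fun s _ => by ring)
    refine ⟨D.restrictScalars ℚ, v, ?_, ?_, ?_⟩
    · intro c hc
      exact D.map_algebraMap ⟨c, hc⟩
    · simp only [v]
      exact div_self hf1
    · intro s
      exact hD s

end Pool.Agent.Y119.CB
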