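import Mathlib

/-!
# Linear differential equations with initial value zero
-/

set_option autoImplicit false

open Set

namespace Pool.Agent.Y119.CB

theorem gron {n m : ℕ} (u u' : ℝ → Fin m → ℂ) (g : ℝ → ℂ) (C : Fin n → Fin m → Fin m → ℝ → ℂ)
    (δ : Fin n → ℂ) (hg : ContinuousOn g (Icc 0 1)) (hg0 : ∀ t ∈ Icc (0 : ℝ) 1, g t ≠ 0)
    (hC : ∀ l i i', ContinuousOn (C l i i') (Icc 0 1))
    (hu : ∀ t ∈ Icc (0 : ℝ) 1, HasDerivAt u (u' t) t) (hu0 : u 0 = 0)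
    (heq : ∀ t ∈ Icc (0 : ℝ) 1, ∀ i, g t * u' t i = ∑ l, ∑ i', δ l * (C l i i' t * u t i')) :
    ∀ t ∈ Icc (0 : ℝ) 1, u t = 0 := by
  have hκ : ContinuousOn (fun t => ∑ i, ‖g t‖⁻¹ * ∑ l, ∑ i', ‖δ l‖ * ‖C l i i' t‖) (Icc 0 1) := by
    refine continuousOn_finsetSum _ fun i _ => ContinuousOn.mul ?_ ?_
    · exact ContinuousOn.inv₀ hg.norm fun t ht => norm_ne_zero_iff.2 (hg0 t ht)
    · refine continuousOn_finsetSum _ fun l _ => continuousOn_finsetSum _ fun i' _ => ?_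
      exact continuousOn_const.mul (hC l i i').norm
  obtain ⟨K, hK⟩ := isCompact_Icc.exists_bound_of_continuousOn hκ
  refine eq_zero_of_abs_deriv_le_mul_abs_self_of_eq_zero_right (f' := u') (K := K)
    (fun t ht => (hu t ht).continuousAt.continuousWithinAt)
    (fun t ht => (hu t ⟨ht.1, ht.2.le⟩).hasDerivWithinAt) hu0 ?_
  intro t ht'
  have ht : t ∈ Icc (0 : ℝ) 1 := ⟨ht'.1, ht'.2.le⟩
  have hK0 : 0 ≤ K := le_trans (norm_nonneg _) (hK t ht)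
  rw [pi_norm_le_iff_of_nonneg (by positivity)]
  intro i
  have h2 : ‖g t‖ * ‖u' t i‖ ≤ (∑ l, ∑ i', ‖δ l‖ * ‖C l i i' t‖) * ‖u t‖ := by
    rw [← norm_mul, heq t ht, Finset.sum_mul]
    refine (norm_sum_le _ _).trans (Finset.sum_le_sum fun l _ => ?_)
    rw [Finset.sum_mul]
    refine (norm_sum_le _ _).trans (Finset.sum_le_sum fun i' _ => ?_)
    rw [norm_mul, norm_mul, ← mul_assoc]
    exact mul_le_mul_of_nonneg_left (norm_le_pi_norm (u t) i') (by positivity)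
  have h3 : 0 < ‖g t‖ := norm_pos_iff.2 (hg0 t ht)
  have h5 : ‖g t‖⁻¹ * ∑ l, ∑ i', ‖δ l‖ * ‖C l i i' t‖ ≤ K := by
    refine le_trans ?_ ((le_abs_self _).trans (hK t ht))
    exact Finset.single_le_sum (f := fun i => ‖g t‖⁻¹ * ∑ l, ∑ i', ‖δ l‖ * ‖C l i i' t‖)
      (fun i _ => by positivity) (Finset.mem_univ i)
  have h4 : ‖u' t i‖ ≤ (‖g t‖⁻¹ * ∑ l, ∑ i', ‖δ l‖ * ‖C l i i' t‖) * ‖u t‖ := by
    rw [mul_assoc, ← div_eq_inv_mul, le_div_iff₀ h3, mul_comm]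
    exact h2
  exact h4.trans (mul_le_mul_of_nonneg_right h5 (norm_nonneg _))

end Pool.Agent.Y119.CB
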