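import Pool.Agent.Y119.CB.Vf

/-!
# A first coordinate which is locally constant on the common zero set
-/

set_option autoImplicit false

open MvPolynomial Matrix Filter Set
open scoped Topology

namespace Pool.Agent.Y119.CB

section an

variable {n r : ℕ} {σ : Type*} {k : Type*} [Field k] [Algebra k ℂ]
  (P : Fin n → σ → MvPolynomial σ k) (Φ : (Fin n → ℂ) → σ → ℂ)

/-- the derivative of a polynomial in the functions -/
noncomputable def dF (x : Fin n → ℂ) (Q : MvPolynomial σ k) : (Fin n → ℂ) →L[ℂ] ℂ :=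
  ∑ j, gr P (Φ x) Q j • (ContinuousLinearMap.proj j : (Fin n → ℂ) →L[ℂ] ℂ)

lemma dF_apply (x v : Fin n → ℂ) (Q : MvPolynomial σ k) :
    dF P Φ x Q v = ∑ j, gr P (Φ x) Q j * v j := by
  simp [dF]

variable {P Φ}

lemma hasFDerivAt_ev {x : Fin n → ℂ}
    (h : ∀ s, HasFDerivAt (fun y => Φ y s) (∑ j, (aeval (Φ x) (P j s)) •
      (ContinuousLinearMap.proj j : (Fin n → ℂ) →L[ℂ] ℂ)) x) (Q : MvPolynomial σ k) :
    HasFDerivAt (fun y => aeval (Φ y) Q) (dF P Φ x Q) x := by
  induction Q using MvPolynomial.induction_on with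
  | C a =>
    have h1 : dF P Φ x (C a) = 0 := by
      ext v
      rw [dF_apply]
      have : ∀ j, dd P j (C a) = 0 := fun j => by
        have := (dd P j).map_algebraMap a
        rwa [MvPolynomial.algebraMap_eq] at this
      simp [gr, this]
    rw [h1]
    simp only [algHom_C]
    exact hasFDerivAt_const _ _
  | add p q hp hq =>
    have h1 : dF P Φ x (p + q) = dF P Φ x p + dF P Φ x q := by
      ext v
      simp [dF_apply, gr, add_mul, Finset.sum_add_distrib]
    rw [h1]
    simp only [map_add]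
    exact hp.add hq
  | mul_X p s hp =>
    have h1 : dF P Φ x (p * X s) = aeval (Φ x) p • (∑ j, (aeval (Φ x) (P j s)) •
      (ContinuousLinearMap.proj j : (Fin n → ℂ) →L[ℂ] ℂ)) + Φ x s • dF P Φ x p := by
      ext v
      simp only [dF_apply, gr, Derivation.leibniz, dd_X, map_add, smul_eq_mul, map_mul, aeval_X,
        _root_.add_apply, _root_.smul_apply,
        _root_.sum_apply, ContinuousLinearMap.proj_apply]
      rw [Finset.mul_sum, Finset.mul_sum, ← Finset.sum_add_distrib]
      exact Finset.sum_congr rfl fun j _ => by ring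
    rw [h1]
    simp only [map_mul, aeval_X]
    exact hp.mul (h s)

set_option linter.unusedSectionVars false

variable {U : Set (Fin n → ℂ)}

/-- the hypothesis on the functions -/
def HypF (P : Fin n → σ → MvPolynomial σ k) (Φ : (Fin n → ℂ) → σ → ℂ) (U : Set (Fin n → ℂ)) :
    Prop := ∀ x ∈ U, ∀ s, HasFDerivAt (fun y => Φ y s) (∑ j, (aeval (Φ x) (P j s)) •
      (ContinuousLinearMap.proj j : (Fin n → ℂ) →L[ℂ] ℂ)) x

lemma cont_ev (h : HypF P Φ U) {x : Fin n → ℂ} (hx : x ∈ U) (Q : MvPolynomial σ k) :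
    ContinuousAt (fun y => aeval (Φ y) Q) x :=
  (hasFDerivAt_ev (h x hx) Q).continuousAt

lemma cont_dF (h : HypF P Φ U) {x : Fin n → ℂ} (hx : x ∈ U) (Q : MvPolynomial σ k) :
    ContinuousAt (fun y => dF P Φ y Q) x := by
  unfold dF gr
  exact tendsto_finsetSum _ fun j _ => (cont_ev h hx (dd P j Q)).smul continuousAt_const

lemma strict_ev (hU : IsOpen U) (h : HypF P Φ U) {x : Fin n → ℂ} (hx : x ∈ U)
    (Q : MvPolynomial σ k) :
    HasStrictFDerivAt (fun y => aeval (Φ y) Q) (dF P Φ x Q) x := by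
  refine hasStrictFDerivAt_of_hasFDerivAt_of_continuousAt ?_ (cont_dF h hx Q)
  filter_upwards [hU.mem_nhds hx] with y hy
  exact hasFDerivAt_ev (h y hy) Q

variable {r : ℕ} (F : Fin r → MvPolynomial σ k) (J : Fin r → Fin n)

open Classical in
/-- replace the coordinates `J i` by the functions `F i` -/
noncomputable def Ps (Φ : (Fin n → ℂ) → σ → ℂ) (x : Fin n → ℂ) : Fin n → ℂ := fun j =>
  if h : ∃ i, J i = j then aeval (Φ x) (F h.choose) else x j

open Classical in
/-- its derivative -/
noncomputable def Ps' (P : Fin n → σ → MvPolynomial σ k) (Φ : (Fin n → ℂ) → σ → ℂ)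
    (x : Fin n → ℂ) : (Fin n → ℂ) →L[ℂ] (Fin n → ℂ) :=
  ContinuousLinearMap.pi fun j =>
    if h : ∃ i, J i = j then dF P Φ x (F h.choose) else ContinuousLinearMap.proj j


lemma Ps_J (hJ : Function.Injective J) (x : Fin n → ℂ) (i : Fin r) :
    Ps F J Φ x (J i) = aeval (Φ x) (F i) := by
  have h : ∃ i', J i' = J i := ⟨i, rfl⟩
  have h1 : h.choose = i := hJ h.choose_spec
  unfold Ps
  rw [dif_pos h, h1]


lemma Ps_not {j : Fin n} (hj : ∀ i, J i ≠ j) (x : Fin n → ℂ) : Ps F J Φ x j = x j := by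
  unfold Ps
  rw [dif_neg (by push Not; exact hj)]


lemma Ps'_J (hJ : Function.Injective J) (x v : Fin n → ℂ) (i : Fin r) :
    Ps' F J P Φ x v (J i) = ∑ j, gr P (Φ x) (F i) j * v j := by
  have h : ∃ i', J i' = J i := ⟨i, rfl⟩
  have h1 : h.choose = i := hJ h.choose_spec
  unfold Ps'
  rw [ContinuousLinearMap.pi_apply, dif_pos h, h1, dF_apply]


lemma Ps'_not {j : Fin n} (hj : ∀ i, J i ≠ j) (x v : Fin n → ℂ) : Ps' F J P Φ x v j = v j := by
  unfold Ps'
  rw [ContinuousLinearMap.pi_apply, dif_neg (by push Not; exact hj)]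
  rfl

lemma hasFDerivAt_Ps (h : HypF P Φ U) {x : Fin n → ℂ} (hx : x ∈ U) :
    HasFDerivAt (Ps F J Φ) (Ps' F J P Φ x) x := by
  rw [hasFDerivAt_pi']
  intro j
  by_cases hj : ∃ i, J i = j
  · have h1 : (fun y => Ps F J Φ y j) = fun y => aeval (Φ y) (F hj.choose) := by
      funext y; unfold Ps; rw [dif_pos hj]
    have h2 : (ContinuousLinearMap.proj j).comp (Ps' F J P Φ x) = dF P Φ x (F hj.choose) := by
      ext v
      simp only [Ps', ContinuousLinearMap.comp_apply, ContinuousLinearMap.proj_apply,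
        ContinuousLinearMap.pi_apply]
      rw [dif_pos hj]
    rw [h1, h2]
    exact hasFDerivAt_ev (h x hx) _
  · have h1 : (fun y => Ps F J Φ y j) = fun y => y j := by
      funext y; unfold Ps; rw [dif_neg hj]
    have h2 : (ContinuousLinearMap.proj j).comp (Ps' F J P Φ x) =
        (ContinuousLinearMap.proj j : (Fin n → ℂ) →L[ℂ] ℂ) := by
      ext v
      simp only [Ps', ContinuousLinearMap.comp_apply, ContinuousLinearMap.proj_apply,
        ContinuousLinearMap.pi_apply]
      rw [dif_neg hj]; rfl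
    rw [h1, h2]
    exact (ContinuousLinearMap.proj j : (Fin n → ℂ) →L[ℂ] ℂ).hasFDerivAt

lemma strict_Ps (hU : IsOpen U) (h : HypF P Φ U) {x : Fin n → ℂ} (hx : x ∈ U) :
    HasStrictFDerivAt (Ps F J Φ) (Ps' F J P Φ x) x := by
  rw [hasStrictFDerivAt_pi']
  intro j
  by_cases hj : ∃ i, J i = j
  · have h1 : (fun y => Ps F J Φ y j) = fun y => aeval (Φ y) (F hj.choose) := by
      funext y; unfold Ps; rw [dif_pos hj]
    have h2 : (ContinuousLinearMap.proj j).comp (Ps' F J P Φ x) = dF P Φ x (F hj.choose) := by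
      ext v
      simp only [Ps', ContinuousLinearMap.comp_apply, ContinuousLinearMap.proj_apply,
        ContinuousLinearMap.pi_apply]
      rw [dif_pos hj]
    rw [h1, h2]
    exact strict_ev hU h hx _
  · have h1 : (fun y => Ps F J Φ y j) = fun y => y j := by
      funext y; unfold Ps; rw [dif_neg hj]
    have h2 : (ContinuousLinearMap.proj j).comp (Ps' F J P Φ x) =
        (ContinuousLinearMap.proj j : (Fin n → ℂ) →L[ℂ] ℂ) := by
      ext v
      simp only [Ps', ContinuousLinearMap.comp_apply, ContinuousLinearMap.proj_apply,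
        ContinuousLinearMap.pi_apply]
      rw [dif_neg hj]; rfl
    rw [h1, h2]
    exact (ContinuousLinearMap.proj j : (Fin n → ℂ) →L[ℂ] ℂ).hasStrictFDerivAt


lemma J_inj {φ : σ → ℂ} (hdet : aeval φ (hh P F J) ≠ 0) : Function.Injective J := by
  intro i i' hii
  by_contra hne
  apply hdet
  have h1 : hh P F J = 0 := by
    unfold hh
    exact Matrix.det_zero_of_column_eq hne fun m => by simp [AJ, hii]
  rw [h1, map_zero]


lemma Ps'_inj {x : Fin n → ℂ} (hdet : aeval (Φ x) (hh P F J) ≠ 0) :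
    Function.Injective (Ps' F J P Φ x) := by
  have hJ := J_inj F J hdet
  rw [injective_iff_map_eq_zero]
  intro v hv
  have h1 : ∀ j, (∀ i, J i ≠ j) → v j = 0 := fun j hj => by
    have := congrFun hv j
    rwa [Ps'_not F J hj] at this
  have h2 : ∀ i, ∑ j, gr P (Φ x) (F i) j * v j = 0 := fun i => by
    have := congrFun hv (J i)
    rwa [Ps'_J F J hJ] at this
  have h3 : ∀ j, aeval (Φ x) (hh P F J) * v j = 0 := by
    intro j
    -- use the adjugate
    by_cases hj : ∃ i, J i = j
    · obtain ⟨i₀, rfl⟩ := hj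
      have h4 : ∀ i, ∑ i', gr P (Φ x) (F i) (J i') * v (J i') = 0 := by
        intro i
        rw [← h2 i]
        rw [← Finset.sum_image (f := fun j => gr P (Φ x) (F i) j * v j)
          (s := Finset.univ) (g := J) (fun a _ b _ hab => hJ hab)]
        refine Finset.sum_subset (Finset.subset_univ _) fun j _ hj => ?_
        rw [h1 j, mul_zero]
        intro i' hi'
        exact hj (Finset.mem_image.2 ⟨i', Finset.mem_univ _, hi'⟩)
      have h5 : (AJ P F J).adjugate * AJ P F J = hh P F J • (1 : Matrix (Fin r) (Fin r) _) :=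
        Matrix.adjugate_mul _
      have h6 : ∀ i', ∑ i, aeval (Φ x) ((AJ P F J).adjugate i₀ i) * gr P (Φ x) (F i) (J i') =
          if i₀ = i' then aeval (Φ x) (hh P F J) else 0 := by
        intro i'
        have h7 := congrArg (aeval (Φ x)) (congrFun (congrFun h5 i₀) i')
        rw [Matrix.mul_apply, map_sum] at h7
        simp only [map_mul, Matrix.smul_apply, Matrix.one_apply, smul_eq_mul, mul_ite, mul_one,
          mul_zero] at h7
        rw [apply_ite (aeval (Φ x)), map_zero] at h7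
        rw [← h7]
        rfl
      calc aeval (Φ x) (hh P F J) * v (J i₀) =
          ∑ i', (if i₀ = i' then aeval (Φ x) (hh P F J) else 0) * v (J i') := by simp
        _ = ∑ i', ∑ i, aeval (Φ x) ((AJ P F J).adjugate i₀ i) *
            (gr P (Φ x) (F i) (J i') * v (J i')) := by
          refine Finset.sum_congr rfl fun i' _ => ?_
          rw [← h6, Finset.sum_mul]
          exact Finset.sum_congr rfl fun i _ => by ring
        _ = 0 := by
          rw [Finset.sum_comm]
          refine Finset.sum_eq_zero fun i _ => ?_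
          rw [← Finset.mul_sum, h4, mul_zero]
    · rw [h1 j (by push Not at hj; exact hj), mul_zero]
  funext j
  exact (mul_eq_zero.1 (h3 j)).resolve_left hdet

/-- the derivative as an equivalence -/
noncomputable def eqv {x : Fin n → ℂ} (hdet : aeval (Φ x) (hh P F J) ≠ 0) :
    (Fin n → ℂ) ≃L[ℂ] (Fin n → ℂ) :=
  (LinearEquiv.ofInjectiveEndo (Ps' F J P Φ x : (Fin n → ℂ) →ₗ[ℂ] (Fin n → ℂ))
    (Ps'_inj F J hdet)).toContinuousLinearEquiv


lemma eqv_coe {x : Fin n → ℂ} (hdet : aeval (Φ x) (hh P F J) ≠ 0) :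
    (eqv F J hdet : (Fin n → ℂ) →L[ℂ] (Fin n → ℂ)) = Ps' F J P Φ x := by
  ext1 v
  rfl

end an

end Pool.Agent.Y119.CB
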