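import Pool.Agent.Y119.CB.Loc
import Pool.Agent.Y119.CB.Gron

/-!
# A first coordinate which is locally constant on the common zero set, continued
-/

set_option autoImplicit false

open MvPolynomial Matrix Filter Set
open scoped Topology

namespace Pool.Agent.Y119.CB

set_option linter.unusedSectionVars false

variable {n r : ℕ} {σ : Type*} {k : Type*} [Field k] [Algebra k ℂ] [Finite σ]
  {P : Fin n → σ → MvPolynomial σ k} {Φ : (Fin n → ℂ) → σ → ℂ} {U : Set (Fin n → ℂ)}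
  {F : Fin r → MvPolynomial σ k} {J : Fin r → Fin n}

/-- the path through `a` and `b` -/
theorem exists_path (hU : IsOpen U) (h : HypF P Φ U) {a : Fin n → ℂ} (ha : a ∈ U)
    (hdet : aeval (Φ a) (hh P F J) ≠ 0) (hFa : ∀ i, aeval (Φ a) (F i) = 0) :
    ∃ O ∈ 𝓝 a, ∀ b ∈ O, (∀ i, aeval (Φ b) (F i) = 0) →
      ∃ (γ v : ℝ → Fin n → ℂ) (δ : Fin n → ℂ), γ 0 = a ∧ γ 1 = b ∧
        (∀ t ∈ Icc (0 : ℝ) 1, γ t ∈ U ∧ aeval (Φ (γ t)) (hh P F J) ≠ 0 ∧
          HasDerivAt γ (v t) t ∧ (∀ i, ∑ j, gr P (Φ (γ t)) (F i) j * v t j = 0) ∧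
          ∀ j, (∀ i, J i ≠ j) → v t j = δ j) := by
  have hJ := J_inj F J hdet
  have hst : HasStrictFDerivAt (Ps F J Φ)
      (eqv F J hdet : (Fin n → ℂ) →L[ℂ] (Fin n → ℂ)) a := by
    rw [eqv_coe]
    exact strict_Ps F J hU h ha
  let e := hst.toOpenPartialHomeomorph (Ps F J Φ)
  have he : (e : (Fin n → ℂ) → (Fin n → ℂ)) = Ps F J Φ := hst.toOpenPartialHomeomorph_coe
  have hae : a ∈ e.source := hst.mem_toOpenPartialHomeomorph_source
  have hat : Ps F J Φ a ∈ e.target := hst.image_mem_toOpenPartialHomeomorph_target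
  -- good neighbourhood
  have hS : {x | x ∈ U ∧ aeval (Φ x) (hh P F J) ≠ 0} ∈ 𝓝 a := by
    have h1 := (cont_ev h ha (hh P F J)).eventually_ne hdet
    filter_upwards [hU.mem_nhds ha, h1] with x hx1 hx2
    exact ⟨hx1, hx2⟩
  have hsymm : ContinuousAt e.symm (Ps F J Φ a) := e.continuousAt_symm hat
  have hsa : e.symm (Ps F J Φ a) = a := by
    have := e.left_inv hae
    rwa [he] at this
  have hpre : e.symm ⁻¹' {x | x ∈ U ∧ aeval (Φ x) (hh P F J) ≠ 0} ∈ 𝓝 (Ps F J Φ a) := by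
    apply hsymm
    rw [hsa]
    exact hS
  obtain ⟨ρ, hρ, hball⟩ := Metric.mem_nhds_iff.1
    (Filter.inter_mem (e.open_target.mem_nhds hat) hpre)
  have hca : ContinuousAt (Ps F J Φ) a := (hasFDerivAt_Ps F J h ha).continuousAt
  refine ⟨e.source ∩ (Ps F J Φ) ⁻¹' (Metric.ball (Ps F J Φ a) ρ),
    Filter.inter_mem (e.open_source.mem_nhds hae) (hca (Metric.ball_mem_nhds _ hρ)), ?_⟩
  rintro b ⟨hbs, hbb⟩ hFb
  set δ := Ps F J Φ b - Ps F J Φ a with hδ
  let y : ℝ → Fin n → ℂ := fun t => Ps F J Φ a + t • δ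
  have hy : ∀ t ∈ Icc (0 : ℝ) 1, y t ∈ Metric.ball (Ps F J Φ a) ρ := by
    intro t ht
    have hb : ‖δ‖ < ρ := by
      have := mem_preimage.1 hbb
      rwa [Metric.mem_ball, dist_eq_norm] at this
    rw [Metric.mem_ball, dist_eq_norm]
    have h1 : y t - Ps F J Φ a = t • δ := by simp [y]
    rw [h1, norm_smul, Real.norm_eq_abs, abs_of_nonneg ht.1]
    calc t * ‖δ‖ ≤ 1 * ‖δ‖ := mul_le_mul_of_nonneg_right ht.2 (norm_nonneg _)
      _ < ρ := by rw [one_mul]; exact hb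
  have hyt : ∀ t ∈ Icc (0 : ℝ) 1, y t ∈ e.target ∧ e.symm (y t) ∈ U ∧
      aeval (Φ (e.symm (y t))) (hh P F J) ≠ 0 := by
    intro t ht
    have := hball (hy t ht)
    exact ⟨this.1, this.2.1, this.2.2⟩
  have hPy : ∀ t ∈ Icc (0 : ℝ) 1, Ps F J Φ (e.symm (y t)) = y t := by
    intro t ht
    have := e.right_inv (hyt t ht).1
    rwa [he] at this
  classical
  let v : ℝ → Fin n → ℂ := fun t =>
    if ht : t ∈ Icc (0 : ℝ) 1 then (eqv F J (hyt t ht).2.2).symm δ else 0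
  refine ⟨fun t => e.symm (y t), v, δ, ?_, ?_, ?_⟩
  · simp only [y, zero_smul, add_zero]
    exact hsa
  · have h1 : y 1 = Ps F J Φ b := by simp [y, hδ]
    simp only
    rw [h1]
    have := e.left_inv hbs
    rwa [he] at this
  · intro t ht
    have hv : Ps' F J P Φ (e.symm (y t)) (v t) = δ := by
      have h1 : v t = (eqv F J (hyt t ht).2.2).symm δ := dif_pos ht
      rw [h1, ← eqv_coe F J (hyt t ht).2.2]
      exact (eqv F J (hyt t ht).2.2).apply_symm_apply δ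
    refine ⟨(hyt t ht).2.1, (hyt t ht).2.2, ?_, ?_, ?_⟩
    · have h1 : HasFDerivAt e.symm
          ((eqv F J (hyt t ht).2.2).symm : (Fin n → ℂ) →L[ℂ] (Fin n → ℂ)) (y t) := by
        apply e.hasFDerivAt_symm (hyt t ht).1
        rw [he, eqv_coe]
        exact hasFDerivAt_Ps F J h (hyt t ht).2.1
      have h2 : HasDerivAt y δ t := by
        have := ((hasDerivAt_id t).smul_const δ).const_add (Ps F J Φ a)
        rw [one_smul] at this
        exact this
      have h3 := (h1.restrictScalars ℝ).comp_hasDerivAt t h2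
      have h4 : v t = (eqv F J (hyt t ht).2.2).symm δ := dif_pos ht
      rw [h4]
      exact h3
    · intro i
      rw [← Ps'_J F J hJ, hv, hδ, Pi.sub_apply, Ps_J F J hJ, Ps_J F J hJ, hFa, hFb, sub_zero]
    · intro j hj
      rw [← Ps'_not F J (P := P) (Φ := Φ) hj (e.symm (y t)) (v t), hv]

/-- **The main local statement.** -/
theorem locally_const {s₀ : σ} (hU : IsOpen U) (h : HypF P Φ U) {a : Fin n → ℂ} (ha : a ∈ U)
    (j₀ : Fin n) (hs₀ : ∀ x, Φ x s₀ = x j₀)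
    (hdet : aeval (Φ a) (hh P F J) ≠ 0) (hFa : ∀ i, aeval (Φ a) (F i) = 0)
    (hspan : ∀ H : MvPolynomial σ k, aeval (Φ a) H = 0 →
      gr P (Φ a) H ∈ Submodule.span ℂ (Set.range fun i => gr P (Φ a) (F i)))
    (h0 : Pi.single j₀ (1 : ℂ) ∈ Submodule.span ℂ (Set.range fun i => gr P (Φ a) (F i))) :
    ∃ O ∈ 𝓝 a, ∀ b ∈ O, (∀ i, aeval (Φ b) (F i) = 0) → b j₀ = a j₀ := by
  classical
  obtain ⟨O, hO, hpath⟩ := exists_path (F := F) (J := J) hU h ha hdet hFa
  refine ⟨O, hO, fun b hb hFb => ?_⟩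
  obtain ⟨γ, v, δ, hγ0, hγ1, hγ⟩ := hpath b hb hFb
  -- generators of the ideal
  let I : Ideal (MvPolynomial σ k) := RingHom.ker (aeval (Φ a) : MvPolynomial σ k →ₐ[k] ℂ)
  have hmI : ∀ Q, Q ∈ I ↔ aeval (Φ a) Q = 0 := fun Q => RingHom.mem_ker
  have hfg : I.FG := (isNoetherianRing_iff_ideal_fg _).1 inferInstance I
  obtain ⟨m, H, hH⟩ := Submodule.fg_iff_exists_fin_generating_family.1 hfg
  have hHI : ∀ i, aeval (Φ a) (H i) = 0 := fun i =>
    (hmI _).1 (hH ▸ Submodule.subset_span ⟨i, rfl⟩)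
  have hrep : ∀ Q : MvPolynomial σ k, aeval (Φ a) Q = 0 → ∃ c : Fin m → MvPolynomial σ k, Q = ∑ i, c i * H i := by
    intro Q hQ
    have h1 : Q ∈ Submodule.span (MvPolynomial σ k) (Set.range H) := by
      rw [hH]; exact (hmI Q).2 hQ
    obtain ⟨c, hc⟩ := (Submodule.mem_span_range_iff_exists_fun _).1 h1
    exact ⟨c, by rw [← hc]; rfl⟩
  have hEH : ∀ l i, ∃ c : Fin m → MvPolynomial σ k, El P F J l (H i) = ∑ i', c i' * H i' :=
    fun l i => hrep _ (El_of_span P F J (Φ a) (H i) (hspan _ (hHI i)) l)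
  choose c hc using hEH
  -- the functions along the path
  let u : ℝ → Fin m → ℂ := fun t i => aeval (Φ (γ t)) (H i)
  let u' : ℝ → Fin m → ℂ := fun t i => ∑ j, gr P (Φ (γ t)) (H i) j * v t j
  have hderiv : ∀ (Q : MvPolynomial σ k), ∀ t ∈ Icc (0 : ℝ) 1,
      HasDerivAt (fun t => aeval (Φ (γ t)) Q) (∑ j, gr P (Φ (γ t)) Q j * v t j) t := by
    intro Q t ht
    have h1 := hasFDerivAt_ev (h (γ t) (hγ t ht).1) Q
    have h2 := (h1.restrictScalars ℝ).comp_hasDerivAt t (hγ t ht).2.2.1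
    have h3 : (ContinuousLinearMap.restrictScalars ℝ (dF P Φ (γ t) Q)) (v t) =
        ∑ j, gr P (Φ (γ t)) Q j * v t j := by
      rw [ContinuousLinearMap.coe_restrictScalars', dF_apply]
    rw [← h3]
    exact h2
  have htang : ∀ (Q : MvPolynomial σ k), ∀ t ∈ Icc (0 : ℝ) 1,
      aeval (Φ (γ t)) (hh P F J) * ∑ j, gr P (Φ (γ t)) Q j * v t j =
        ∑ l, δ l * aeval (Φ (γ t)) (El P F J l Q) := by
    intro Q t ht
    rw [tang P F J (Φ (γ t)) Q (v t) (hγ t ht).2.2.2.1]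
    refine Finset.sum_congr rfl fun l _ => ?_
    by_cases hl : ∃ i, J i = l
    · obtain ⟨i, rfl⟩ := hl
      rw [El_J, map_zero, mul_zero, mul_zero]
    · rw [(hγ t ht).2.2.2.2 l (by push Not at hl; exact hl)]
  have hcγ : ContinuousOn γ (Icc 0 1) := fun t ht =>
    (hγ t ht).2.2.1.continuousAt.continuousWithinAt
  have hcev : ∀ Q : MvPolynomial σ k, ContinuousOn (fun t => aeval (Φ (γ t)) Q) (Icc 0 1) :=
    fun Q t ht => (hderiv Q t ht).continuousAt.continuousWithinAt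
  have heq : ∀ t ∈ Icc (0 : ℝ) 1, ∀ i, aeval (Φ (γ t)) (hh P F J) * u' t i =
      ∑ l, ∑ i', δ l * (aeval (Φ (γ t)) (c l i i') * u t i') := by
    intro t ht i
    rw [htang (H i) t ht]
    refine Finset.sum_congr rfl fun l _ => ?_
    rw [hc l i, map_sum, Finset.mul_sum]
    exact Finset.sum_congr rfl fun i' _ => by rw [map_mul]
  have hu0 : ∀ t ∈ Icc (0 : ℝ) 1, u t = 0 := by
    refine gron u u' (fun t => aeval (Φ (γ t)) (hh P F J))
      (fun l i i' t => aeval (Φ (γ t)) (c l i i')) δ (hcev _) (fun t ht => (hγ t ht).2.1)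
      (fun l i i' => hcev _) ?_ ?_ heq
    · intro t ht
      rw [hasDerivAt_pi]
      exact fun i => hderiv (H i) t ht
    · funext i
      simp only [u, hγ0, Pi.zero_apply]
      exact hHI i
  have hzero : ∀ Q : MvPolynomial σ k, aeval (Φ a) Q = 0 → ∀ t ∈ Icc (0 : ℝ) 1, aeval (Φ (γ t)) Q = 0 := by
    intro Q hQ t ht
    obtain ⟨d, hd⟩ := hrep Q hQ
    rw [hd, map_sum]
    refine Finset.sum_eq_zero fun i _ => ?_
    rw [map_mul]
    have := congrFun (hu0 t ht) i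
    simp only [u, Pi.zero_apply] at this
    rw [this, mul_zero]
  -- the first coordinate
  have hgr0 : gr P (Φ a) (X s₀ : MvPolynomial σ k) = Pi.single j₀ 1 := by
    have h1 := hasFDerivAt_ev (h a ha) (X s₀ : MvPolynomial σ k)
    have h2 : (fun y => aeval (Φ y) (X s₀ : MvPolynomial σ k)) = fun y => y j₀ := by
      funext y; rw [aeval_X, hs₀]
    rw [h2] at h1
    have h3 := h1.unique ((ContinuousLinearMap.proj j₀ : (Fin n → ℂ) →L[ℂ] ℂ).hasFDerivAt)
    funext j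
    have h4 := DFunLike.congr_fun h3 (Pi.single j 1)
    rw [dF_apply] at h4
    simp only [Pi.single_apply, mul_ite, mul_one, mul_zero, Finset.sum_ite_eq', Finset.mem_univ,
      if_true, ContinuousLinearMap.proj_apply] at h4
    rw [h4, Pi.single_apply]
    simp only [eq_comm]
  have hEX : ∀ l, aeval (Φ a) (El P F J l (X s₀)) = 0 := fun l =>
    El_of_span P F J (Φ a) (X s₀) (by rw [hgr0]; exact h0) l
  have hder0 : ∀ t ∈ Icc (0 : ℝ) 1, HasDerivAt (fun t => γ t j₀) 0 t := by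
    intro t ht
    have h1 := hderiv (X s₀) t ht
    have h2 := htang (X s₀) t ht
    have h3 : ∑ l, δ l * aeval (Φ (γ t)) (El P F J l (X s₀)) = 0 :=
      Finset.sum_eq_zero fun l _ => by rw [hzero _ (hEX l) t ht, mul_zero]
    rw [h3] at h2
    have h4 := (mul_eq_zero.1 h2).resolve_left (hγ t ht).2.1
    rw [h4] at h1
    have h5 : (fun t => aeval (Φ (γ t)) (X s₀ : MvPolynomial σ k)) = fun t => γ t j₀ := by
      funext t; rw [aeval_X, hs₀]
    rw [h5] at h1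
    exact h1
  have hfin : ∀ t ∈ Icc (0 : ℝ) 1, γ t j₀ - a j₀ = 0 := by
    refine eq_zero_of_abs_deriv_le_mul_abs_self_of_eq_zero_right (f := fun t => γ t j₀ - a j₀)
      (f' := fun _ => 0) (K := 0) ?_ ?_ ?_ ?_
    · exact fun t ht => ((hder0 t ht).sub_const _).continuousAt.continuousWithinAt
    · exact fun t ht => ((hder0 t ⟨ht.1, ht.2.le⟩).sub_const _).hasDerivWithinAt
    · simp only [hγ0, sub_self]
    · intro t _
      simp
  have h1 := hfin 1 ⟨zero_le_one, le_rfl⟩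
  rw [hγ1] at h1
  exact sub_eq_zero.1 h1

end Pool.Agent.Y119.CB
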