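import Mathlib

/-!
# Polynomial vector fields that kill given polynomials
-/

set_option autoImplicit false

open MvPolynomial Matrix

namespace Pool.Agent.Y119.CB

section alg

set_option linter.unusedSectionVars false

variable {n r : ℕ} {σ : Type*} {k : Type*} [Field k] [Algebra k ℂ]
  (P : Fin n → σ → MvPolynomial σ k) (F : Fin r → MvPolynomial σ k) (J : Fin r → Fin n)

/-- the derivation with `X_s ↦ P_{j s}` -/
noncomputable def dd (j : Fin n) : Derivation k (MvPolynomial σ k) (MvPolynomial σ k) :=
  mkDerivation k (P j)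

@[simp] lemma dd_X (j : Fin n) (s : σ) : dd P j (X s) = P j s := by
  simp [dd]

/-- the gradient at a point -/
noncomputable def gr (φ : σ → ℂ) (Q : MvPolynomial σ k) : Fin n → ℂ := fun j => aeval φ (dd P j Q)

/-- the square matrix of derivatives -/
noncomputable def AJ : Matrix (Fin r) (Fin r) (MvPolynomial σ k) :=
  Matrix.of fun i i' => dd P (J i') (F i)

/-- a column of the matrix of derivatives -/
noncomputable def Al (l : Fin n) : Fin r → MvPolynomial σ k := fun i => dd P l (F i)

/-- coefficients of the vector fields -/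
noncomputable def cf (l : Fin n) : Fin r → MvPolynomial σ k :=
  (AJ P F J).adjugate *ᵥ Al P F l

/-- the determinant -/
noncomputable def hh : MvPolynomial σ k := (AJ P F J).det

/-- the vector fields -/
noncomputable def El (l : Fin n) (Q : MvPolynomial σ k) : MvPolynomial σ k :=
  hh P F J * dd P l Q - ∑ i, cf P F J l i * dd P (J i) Q

lemma cf_rel (l : Fin n) (i' : Fin r) :
    ∑ i, dd P (J i) (F i') * cf P F J l i = hh P F J * dd P l (F i') := by
  have h1 : AJ P F J *ᵥ cf P F J l = hh P F J • Al P F l := by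
    rw [cf, Matrix.mulVec_mulVec, Matrix.mul_adjugate, Matrix.smul_mulVec, Matrix.one_mulVec, hh]
  have h2 := congrFun h1 i'
  simpa [Matrix.mulVec, dotProduct, AJ, Al] using h2

lemma cf_J (i' i : Fin r) : cf P F J (J i') i = if i = i' then hh P F J else 0 := by
  have h1 : (AJ P F J).adjugate * AJ P F J = hh P F J • (1 : Matrix (Fin r) (Fin r) _) :=
    Matrix.adjugate_mul _
  have h2 := congrFun (congrFun h1 i) i'
  rw [Matrix.mul_apply] at h2
  simp only [Matrix.smul_apply, Matrix.one_apply, smul_eq_mul, mul_ite, mul_one, mul_zero] at h2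
  rw [← h2]
  simp [cf, Matrix.mulVec, dotProduct, AJ, Al]

lemma El_J (i' : Fin r) (Q : MvPolynomial σ k) : El P F J (J i') Q = 0 := by
  unfold El
  simp [cf_J]

/-- the tangential formula -/
lemma tang (φ : σ → ℂ) (Q : MvPolynomial σ k) (v : Fin n → ℂ)
    (hv : ∀ i, ∑ j, gr P φ (F i) j * v j = 0) :
    aeval φ (hh P F J) * ∑ j, gr P φ Q j * v j = ∑ l, v l * aeval φ (El P F J l Q) := by
  have h1 : ∀ l, v l * aeval φ (El P F J l Q) = aeval φ (hh P F J) * (gr P φ Q l * v l) -
      ∑ i, (∑ i', aeval φ ((AJ P F J).adjugate i i') * (gr P φ (F i') l * v l)) *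
        aeval φ (dd P (J i) Q) := by
    intro l
    have h2 : aeval φ (El P F J l Q) = aeval φ (hh P F J) * gr P φ Q l -
        ∑ i, (∑ i', aeval φ ((AJ P F J).adjugate i i') * gr P φ (F i') l) *
          aeval φ (dd P (J i) Q) := by
      simp only [El, map_sub, map_mul, map_sum, cf, Matrix.mulVec, dotProduct, Al, gr]
    rw [h2, mul_sub]
    congr 1
    · ring
    · rw [Finset.mul_sum]
      refine Finset.sum_congr rfl fun i _ => ?_
      rw [Finset.sum_mul, Finset.sum_mul, Finset.mul_sum]
      exact Finset.sum_congr rfl fun i' _ => by ring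
  rw [Finset.sum_congr rfl fun l _ => h1 l, Finset.sum_sub_distrib, ← Finset.mul_sum]
  have h3 : ∑ l, ∑ i, (∑ i', aeval φ ((AJ P F J).adjugate i i') * (gr P φ (F i') l * v l)) *
        aeval φ (dd P (J i) Q) = 0 := by
    rw [Finset.sum_comm]
    refine Finset.sum_eq_zero fun i _ => ?_
    rw [← Finset.sum_mul, Finset.sum_comm]
    have h4 : ∑ i', ∑ l, aeval φ ((AJ P F J).adjugate i i') * (gr P φ (F i') l * v l) = 0 := by
      refine Finset.sum_eq_zero fun i' _ => ?_
      rw [← Finset.mul_sum, hv, mul_zero]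
    rw [h4, zero_mul]
  rw [h3, sub_zero]

/-- polynomials whose gradients are combinations of those of `F` are killed -/
lemma El_of_span (φ : σ → ℂ) (Q : MvPolynomial σ k)
    (hQ : gr P φ Q ∈ Submodule.span ℂ (Set.range fun i => gr P φ (F i))) (l : Fin n) :
    aeval φ (El P F J l Q) = 0 := by
  let Λ : (Fin n → ℂ) →ₗ[ℂ] ℂ :=
    aeval φ (hh P F J) • LinearMap.proj l - ∑ i, aeval φ (cf P F J l i) • LinearMap.proj (J i)
  have hΛ : ∀ g, Λ g = aeval φ (hh P F J) * g l - ∑ i, aeval φ (cf P F J l i) * g (J i) := by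
    intro g
    simp [Λ]
  have h1 : ∀ g ∈ Submodule.span ℂ (Set.range fun i => gr P φ (F i)), Λ g = 0 := by
    intro g hg
    induction hg using Submodule.span_induction with
    | mem x hx =>
      obtain ⟨i', rfl⟩ := hx
      rw [hΛ]
      have h2 := congrArg (aeval φ) (cf_rel P F J l i')
      simp only [map_sum, map_mul] at h2
      change aeval φ (hh P F J) * aeval φ (dd P l (F i')) - _ = 0
      rw [← h2, sub_eq_zero]
      exact Finset.sum_congr rfl fun i _ => by simp [gr, mul_comm]
    | zero => simp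
    | add x y _ _ hx hy => rw [map_add, hx, hy, add_zero]
    | smul c x _ hx => rw [map_smul, hx, smul_zero]
  have h3 := h1 _ hQ
  rw [hΛ] at h3
  simpa [El, gr, map_sub, map_mul, map_sum] using h3

end alg

end Pool.Agent.Y119.CB
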